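import Mathlib

/-!
# Counting tuples of integer combinations of given vectors that are linearly dependent
-/

set_option autoImplicit false

open Module Finset

namespace Pool.Agent.E8helper14.PA

/-- The `m × N` matrices of integers of absolute value at most `H`. -/
noncomputable def box (m N H : ℕ) : Finset (Fin m → Fin N → ℤ) :=
  Fintype.piFinset fun _ => Fintype.piFinset fun _ => Finset.Icc (-(H : ℤ)) H

lemma card_Icc_int (H : ℕ) : (Finset.Icc (-(H : ℤ)) H).card = 2 * H + 1 := by
  rw [Int.card_Icc]
  omega

lemma card_row (N H : ℕ) :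
    (Fintype.piFinset fun _ : Fin N => Finset.Icc (-(H : ℤ)) H).card = (2 * H + 1) ^ N := by
  rw [Fintype.card_piFinset, Finset.prod_const, card_Icc_int, Finset.card_univ, Fintype.card_fin]

lemma card_box (m N H : ℕ) : (box m N H).card = (2 * H + 1) ^ (m * N) := by
  rw [box, Fintype.card_piFinset, Finset.prod_const, card_row, Finset.card_univ, Fintype.card_fin,
    ← pow_mul, Nat.mul_comm N m]

/-- A rational subspace of dimension `d` contains at most `(2H+1)^d` integer points of the box. -/
lemma card_subspace {N : ℕ} (U : Submodule ℚ (Fin N → ℚ)) (H : ℕ) (S : Finset (Fin N → ℤ))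
    (hS : ∀ k ∈ S, (∀ j, k j ∈ Finset.Icc (-(H : ℤ)) H) ∧ (fun j => (k j : ℚ)) ∈ U) :
    S.card ≤ (2 * H + 1) ^ finrank ℚ U := by
  classical
  let v : Fin N → Module.Dual ℚ U := fun j => (LinearMap.proj j).comp U.subtype
  obtain ⟨κ, a, ha, hspan, hli⟩ := exists_linearIndependent' ℚ v
  have : Finite κ := Finite.of_injective a ha
  have : Fintype κ := Fintype.ofFinite κ
  have hcard : Fintype.card κ ≤ finrank ℚ U := by
    rw [← Subspace.dual_finrank_eq (K := ℚ) (V := U)]
    exact hli.fintype_card_le_finrank
  have h1 : S.card ≤ (Fintype.piFinset fun _ : κ => Finset.Icc (-(H : ℤ)) H).card := by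
    refine Finset.card_le_card_of_injOn (fun k c => k (a c)) ?_ ?_
    · intro k hk
      simp only [Finset.mem_coe, Fintype.mem_piFinset]
      intro c
      exact (hS k hk).1 (a c)
    · intro k hk k' hk' heq
      have hu := U.sub_mem (hS k hk).2 (hS k' hk').2
      set u : U := ⟨_, hu⟩ with hu'
      have hz : ∀ w ∈ Submodule.span ℚ (Set.range v), w u = 0 := by
        intro w hw
        rw [← hspan] at hw
        induction hw using Submodule.span_induction with
        | mem x hx =>
          obtain ⟨c, rfl⟩ := hx
          have h2 : k (a c) = k' (a c) := congrFun heq c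
          simp [v, hu', h2]
        | zero => rfl
        | add x y _ _ hx hy => rw [LinearMap.add_apply, hx, hy, add_zero]
        | smul q x _ hx => rw [LinearMap.smul_apply, hx, smul_zero]
      funext j
      have h3 := hz (v j) (Submodule.subset_span ⟨j, rfl⟩)
      have h4 : (k j : ℚ) - (k' j : ℚ) = 0 := by simpa [v, hu'] using h3
      exact_mod_cast sub_eq_zero.1 h4
  refine h1.trans ?_
  rw [Fintype.card_piFinset, Finset.prod_const, card_Icc_int, Finset.card_univ]
  exact Nat.pow_le_pow_right (by omega) hcard

/-- A union bound: each of the `m` conditions `P i` bounds the number of possibilities for the row `i`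
if the other rows are given. -/
lemma count_union {m N H : ℕ} (P : Fin m → (Fin m → Fin N → ℤ) → Prop) (B : ℕ)
    [DecidablePred fun k => ∃ i, P i k]
    (hP : ∀ i, ∀ k₀ : Fin m → Fin N → ℤ, ∀ S : Finset (Fin m → Fin N → ℤ),
      (∀ k ∈ S, k ∈ box m N H ∧ P i k ∧ Function.update k i 0 = k₀) → S.card ≤ B) :
    ((box m N H).filter (fun k => ∃ i, P i k)).card ≤ m * (B * (2 * H + 1) ^ ((m - 1) * N)) := by
  classical
  have h1 : (box m N H).filter (fun k => ∃ i, P i k) ⊆
      (Finset.univ : Finset (Fin m)).biUnion fun i => (box m N H).filter (fun k => P i k) := by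
    intro k hk
    rw [Finset.mem_filter] at hk
    obtain ⟨hk, i, hi⟩ := hk
    exact Finset.mem_biUnion.2 ⟨i, Finset.mem_univ i, Finset.mem_filter.2 ⟨hk, hi⟩⟩
  refine (Finset.card_le_card h1).trans (Finset.card_biUnion_le.trans ?_)
  have h2 : ∀ i ∈ (Finset.univ : Finset (Fin m)),
      ((box m N H).filter (fun k => P i k)).card ≤ B * (2 * H + 1) ^ ((m - 1) * N) := by
    intro i _
    let T : Finset (Fin m → Fin N → ℤ) := Fintype.piFinset fun j =>
      if j = i then {0} else Fintype.piFinset fun _ : Fin N => Finset.Icc (-(H : ℤ)) H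
    have hT : T.card = (2 * H + 1) ^ ((m - 1) * N) := by
      have h3 : ∀ j : Fin m, (if j = i then ({0} : Finset (Fin N → ℤ)) else
          Fintype.piFinset fun _ : Fin N => Finset.Icc (-(H : ℤ)) H).card =
          if j = i then 1 else (2 * H + 1) ^ N := by
        intro j
        split_ifs
        · exact Finset.card_singleton _
        · exact card_row N H
      rw [Fintype.card_piFinset]
      simp_rw [h3]
      rw [Finset.prod_ite, Finset.prod_const_one, one_mul, Finset.prod_const, ← pow_mul]
      have h4 : (Finset.univ.filter fun j : Fin m => ¬ j = i).card = m - 1 := by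
        rw [Finset.filter_ne', Finset.card_erase_of_mem (Finset.mem_univ i), Finset.card_univ,
          Fintype.card_fin]
      rw [h4, Nat.mul_comm N (m - 1)]
    rw [← hT]
    refine Finset.card_le_mul_card_image_of_maps_to (f := fun k => Function.update k i 0) ?_ B ?_
    · intro k hk
      rw [Finset.mem_filter, box, Fintype.mem_piFinset] at hk
      rw [Fintype.mem_piFinset]
      intro j
      by_cases hj : j = i
      · subst hj
        simp
      · rw [if_neg hj, Function.update_of_ne hj]
        exact hk.1 j
    · intro k₀ _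
      refine hP i k₀ _ fun k hk => ?_
      rw [Finset.mem_filter, Finset.mem_filter] at hk
      exact ⟨hk.1.1, hk.1.2, hk.2⟩
  refine (Finset.sum_le_sum h2).trans ?_
  rw [Finset.sum_const, Finset.card_univ, Fintype.card_fin, smul_eq_mul]

section Vectors

variable {K V : Type*} [Field K] [AddCommGroup V] [Module K V]

lemma exists_mem_span {m : ℕ} (v : Fin m → V) (h : ¬ LinearIndependent K v) :
    ∃ i : Fin m, v i ∈ Submodule.span K (v '' Set.Iio i) := by
  induction m with
  | zero => exact absurd (linearIndependent_empty_type) h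
  | succ m ih =>
    rw [linearIndependent_finSucc', not_and_or, not_not] at h
    rcases h with h | h
    · obtain ⟨i, hi⟩ := ih (Fin.init v) h
      refine ⟨i.castSucc, ?_⟩
      refine Submodule.span_mono ?_ hi
      rintro _ ⟨j, hj, rfl⟩
      exact ⟨j.castSucc, Fin.castSucc_lt_castSucc_iff.2 hj, rfl⟩
    · refine ⟨Fin.last m, Submodule.span_mono ?_ h⟩
      rintro _ ⟨j, rfl⟩
      exact ⟨j.castSucc, Fin.castSucc_lt_last j, rfl⟩

/-- The dimension of the span of the previous vectors. -/
lemma finrank_span_Iio {m : ℕ} (v : Fin m → V) (i : Fin m) :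
    finrank K (Submodule.span K (v '' Set.Iio i)) ≤ m - 1 := by
  classical
  rw [Set.image_eq_range]
  refine (finrank_range_le_card _).trans ?_
  have h1 : Fintype.card (Set.Iio i) = (i : ℕ) := by simp
  rw [h1]
  have := i.2
  omega

variable [CharZero K] [Module ℚ V] [IsScalarTower ℚ K V]

/-- The rational combinations of the vectors `φ l` that lie in `W`. -/
def relSpace {N : ℕ} (φ : Fin N → V) (W : Submodule K V) : Submodule ℚ (Fin N → ℚ) :=
  (W.restrictScalars ℚ).comap (Fintype.linearCombination ℚ φ)

lemma mem_relSpace {N : ℕ} (φ : Fin N → V) (W : Submodule K V) (q : Fin N → ℚ) :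
    q ∈ relSpace φ W ↔ ∑ l, q l • φ l ∈ W := Iff.rfl

/-- The integer combination of the vectors `φ l`. -/
def icomb {N : ℕ} (φ : Fin N → V) (k : Fin N → ℤ) : V := ∑ l, k l • φ l

lemma icomb_mem {N : ℕ} (φ : Fin N → V) (W : Submodule K V) (k : Fin N → ℤ) :
    icomb φ k ∈ W ↔ (fun l => (k l : ℚ)) ∈ relSpace φ W := by
  rw [mem_relSpace, icomb]
  simp only [Int.cast_smul_eq_zsmul]

/-- The number of the integer matrices in the box that give linearly dependent tuples. -/
theorem count_dependent {m N H : ℕ} (φ : Fin N → V) (κ : ℕ)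
    [DecidablePred fun k : Fin m → Fin N → ℤ => ¬ LinearIndependent K fun i => icomb φ (k i)]
    (hκ : ∀ (i : Fin m) (k : Fin m → Fin N → ℤ),
      finrank ℚ (relSpace φ (Submodule.span K ((fun j => icomb φ (k j)) '' Set.Iio i))) ≤ κ) :
    ((box m N H).filter fun k => ¬ LinearIndependent K fun i => icomb φ (k i)).card ≤
      m * (2 * H + 1) ^ ((m - 1) * N + κ) := by
  classical
  let P : Fin m → (Fin m → Fin N → ℤ) → Prop := fun i k =>
    icomb φ (k i) ∈ Submodule.span K ((fun j => icomb φ (k j)) '' Set.Iio i)
  have h1 : ((box m N H).filter fun k => ¬ LinearIndependent K fun i => icomb φ (k i)) ⊆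
      (box m N H).filter (fun k => ∃ i, P i k) := by
    intro k hk
    rw [Finset.mem_filter] at hk ⊢
    exact ⟨hk.1, exists_mem_span _ hk.2⟩
  refine (Finset.card_le_card h1).trans
    ((count_union P ((2 * H + 1) ^ κ) fun i k₀ S hS => ?_).trans_eq ?_)
  · set W := Submodule.span K ((fun j => icomb φ (k₀ j)) '' Set.Iio i) with hW
    have hW' : ∀ k ∈ S, Submodule.span K ((fun j => icomb φ (k j)) '' Set.Iio i) = W := by
      intro k hk
      rw [hW]
      congr 1
      refine Set.image_congr fun j hj => ?_
      have hne : j ≠ i := ne_of_lt hj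
      have h2 : k₀ j = k j := by
        rw [← (hS k hk).2.2, Function.update_of_ne hne]
      rw [h2]
    have hinj : Set.InjOn (fun k : Fin m → Fin N → ℤ => k i) S := by
      intro k hk k' hk' heq
      have h3 : Function.update k i 0 = Function.update k' i 0 := by
        rw [(hS k hk).2.2, (hS k' hk').2.2]
      funext j
      by_cases hj : j = i
      · subst hj
        exact heq
      · have h4 := congrFun h3 j
        rwa [Function.update_of_ne hj, Function.update_of_ne hj] at h4
    rw [← Finset.card_image_of_injOn hinj]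
    refine (card_subspace (relSpace φ W) H _ ?_).trans
      (Nat.pow_le_pow_right (by omega) (hκ i k₀))
    intro c hc
    obtain ⟨k, hk, rfl⟩ := Finset.mem_image.1 hc
    have hb := (hS k hk).1
    rw [box, Fintype.mem_piFinset] at hb
    refine ⟨fun j => Fintype.mem_piFinset.1 (hb i) j, ?_⟩
    have hPk := (hS k hk).2.1
    change icomb φ (k i) ∈ Submodule.span K ((fun j => icomb φ (k j)) '' Set.Iio i) at hPk
    rw [hW' k hk] at hPk
    exact (icomb_mem φ W (k i)).1 hPk
  · rw [← pow_add, add_comm κ]

end Vectors

end Pool.Agent.E8helper14.PA
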