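import Pool.Agent.E8helper40.PC.Main
import Pool.Agent.E8helper14.PA.Count

/-!
# Tuples of rational points of a simple abelian variety: definitions

`SimpleAbelianVariety p n`, `closure`, `endSpan` and `HasZpRank` are in `Pool.Agent.E8helper40.PC`.
-/

set_option autoImplicit false

open TensorProduct Module Pool.Agent.E8helper40.PC

namespace Pool.Agent.E8helper14.PA

variable {p : ℕ} [Fact p.Prime] {n : ℕ} (A : SimpleAbelianVariety p n)

/-- The points `e_1, …, e_N` of `A(ℚ)` are independent modulo torsion. -/
def Independent {N : ℕ} (e : Fin N → A.Pts) : Prop :=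
  LinearIndependent ℚ fun j => (1 : ℚ) ⊗ₜ[ℤ] e j

/-- The points `e_1, …, e_N` generate a subgroup of `A(ℚ)` with torsion quotient. -/
def Generates {N : ℕ} (e : Fin N → A.Pts) : Prop :=
  Submodule.span ℚ (Set.range fun j => (1 : ℚ) ⊗ₜ[ℤ] e j) = ⊤

/-- The subgroup generated by the points `∑_j k i j • e j + t i`, `i = 1, …, m`. -/
def tupleGroup {m N : ℕ} (e : Fin N → A.Pts) (t : Fin m → A.Pts) (k : Fin m → Fin N → ℤ) :
    AddSubgroup A.Pts :=
  AddSubgroup.closure (Set.range fun i => ∑ j, k i j • e j + t i)

/-- For all torsion points `t_i`, the closure in `A(ℚ_p)` of the group generated by the `m` points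
`∑_j k i j • e j + t i` is isomorphic to `ℤ_p ^ m` modulo finite torsion. -/
def GoodTuple {m N : ℕ} (e : Fin N → A.Pts) (k : Fin m → Fin N → ℤ) : Prop :=
  ∀ t : Fin m → A.Pts, (∀ i, IsOfFinAddOrder (t i)) → HasZpRank p (closure A (tupleGroup A e t k)) m

open Classical in
/-- The number of the `m × N` matrices of integers of absolute value at most `H` that do not give a
good tuple. -/
noncomputable def failures {N : ℕ} (e : Fin N → A.Pts) (m H : ℕ) : ℕ :=
  ((box m N H).filter fun k => ¬ GoodTuple A e k).card

/-- The number of the integer vectors `k`, `|k_j| ≤ H`, such that for some torsion point `t` the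
`ℤ_p`-rank of the closure of `L + ℤ x`, `x = ∑_j k j • e j + t`, is not `r + 1`. -/
noncomputable def badExtensions {N : ℕ} (e : Fin N → A.Pts) (L : AddSubgroup A.Pts) (r H : ℕ) : ℕ :=
  Set.ncard {k : Fin N → ℤ | (∀ j, |k j| ≤ H) ∧ ∃ t : A.Pts, IsOfFinAddOrder t ∧
    ¬ HasZpRank p (closure A (L ⊔ AddSubgroup.zmultiples (∑ j, k j • e j + t))) (r + 1)}

/-- The group generated by the `e_j`. -/
def hull {N : ℕ} (e : Fin N → A.Pts) : AddSubgroup A.Pts := AddSubgroup.closure (Set.range e)

/-- The dimension over the subfield `F` of `End⁰(A)` of the space spanned by the `e_j` over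
`End⁰(A)`. -/
noncomputable def spanDim (F : Subfield A.End) {N : ℕ} (e : Fin N → A.Pts) : ℕ :=
  finrank F (endSpan A (hull A e))

/-- The degree of the subfield `F` over `ℚ`. -/
noncomputable def degree (F : Subfield A.End) : ℕ := finrank ℚ F

/-- The multiplication of `F` is commutative. -/
def Commutative (F : Subfield A.End) : Prop := ∀ x ∈ F, ∀ y ∈ F, x * y = y * x

/-- Part 1 of the theorem: adding one more point. -/
def ExtensionBound (F : Subfield A.End) {N : ℕ} (e : Fin N → A.Pts) : Prop :=
  ∀ (L : AddSubgroup A.Pts) (r H : ℕ), HasZpRank p (closure A L) r →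
    badExtensions A e L r H ≤ (2 * H + 1) ^ (r * spanDim A F e)

/-- Part 2 of the theorem: tuples of combinations of arbitrary independent points. -/
def TupleBound (F : Subfield A.End) {N : ℕ} (e : Fin N → A.Pts) : Prop :=
  ∀ m H : ℕ, failures A e m H ≤ m * (2 * H + 1) ^ ((m - 1) * (N + spanDim A F e))

/-- Part 3 of the theorem: the proportion of the failures if the `e_j` generate `A(ℚ)` up to a torsion
quotient. -/
def ProportionBound (F : Subfield A.End) {N : ℕ} (e : Fin N → A.Pts) : Prop :=
  ∃ s : ℕ, N = degree A F * s ∧ ∀ m H : ℕ, m ≤ degree A F →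
    failures A e m H * (2 * H + 1) ^ (s * (degree A F + 1 - m)) ≤ m * (box m N H).card

end Pool.Agent.E8helper14.PA
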