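import Pool.Agent.E8helper14.PA.Gl

/-!
# The theorem on almost all tuples of rational points
-/

set_option autoImplicit false

open TensorProduct Module Pool.Agent.E8helper40.PC

namespace Pool.Agent.E8helper14.PA

variable {p : ℕ} [Fact p.Prime] {n : ℕ} (A : SimpleAbelianVariety p n)

theorem failures_le (F : Subfield A.End) (hF : ∀ x ∈ F, ∀ y ∈ F, x * y = y * x) {N : ℕ}
    (e : Fin N → A.Pts) (he : Independent A e) (m H : ℕ) :
    failures A e m H ≤
      m * (2 * H + 1) ^ ((m - 1) * (N + finrank F (endSpan A (hull A e)))) := by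
  classical
  set s := finrank F (endSpan A (hull A e)) with hs
  have h1 : failures A e m H ≤ ((box m N H).filter fun k =>
      ¬ LinearIndependent ℚ_[p] fun i => icomb (logs A e) (k i)).card := by
    unfold failures
    refine Finset.card_le_card fun k hk => ?_
    rw [Finset.mem_filter] at hk ⊢
    exact ⟨hk.1, fun h => hk.2 (good_of_independent A e k h)⟩
  refine h1.trans ((count_dependent (logs A e) ((m - 1) * s) fun i k => ?_).trans_eq ?_)
  · refine (rel_bound A F hF e he _).trans ?_
    exact Nat.mul_le_mul_right _ (finrank_span_Iio _ i)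
  · rw [← Nat.mul_add]

theorem badExtensions_le (F : Subfield A.End) (hF : ∀ x ∈ F, ∀ y ∈ F, x * y = y * x) {N : ℕ}
    (e : Fin N → A.Pts) (he : Independent A e) (L : AddSubgroup A.Pts) (r H : ℕ)
    (hr : HasZpRank p (closure A L) r) :
    badExtensions A e L r H ≤ (2 * H + 1) ^ (r * finrank F (endSpan A (hull A e))) := by
  classical
  have hr1 := rank_closure A L hr
  set W := logSpan A L with hW
  let row : Finset (Fin N → ℤ) := Fintype.piFinset fun _ : Fin N => Finset.Icc (-(H : ℤ)) H
  let S := row.filter fun k => icomb (logs A e) k ∈ W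
  have hsub : {k : Fin N → ℤ | (∀ j, |k j| ≤ H) ∧ ∃ t : A.Pts, IsOfFinAddOrder t ∧
      ¬ HasZpRank p (closure A (L ⊔ AddSubgroup.zmultiples (∑ j, k j • e j + t))) (r + 1)} ⊆
      (S : Set (Fin N → ℤ)) := by
    rintro k ⟨hk, t, ht, hbad⟩
    rw [Finset.mem_coe, Finset.mem_filter, Fintype.mem_piFinset]
    refine ⟨fun j => Finset.mem_Icc.2 (abs_le.1 (hk j)), ?_⟩
    by_contra hnot
    apply hbad
    set x := ∑ j, k j • e j + t with hx
    have hlx : A.log (A.incl x) = icomb (logs A e) k := log_point A e k ht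
    have h2 : logSpan A (L ⊔ AddSubgroup.zmultiples x) =
        W ⊔ Submodule.span ℚ_[p] {icomb (logs A e) k} := by
      have h3 : L ⊔ AddSubgroup.zmultiples x = AddSubgroup.closure ((L : Set A.Pts) ∪ {x}) := by
        rw [AddSubgroup.closure_union, AddSubgroup.closure_eq, AddSubgroup.zmultiples_eq_closure]
      rw [h3, logSpan_closure, Set.image_union, Set.image_singleton, Submodule.span_union, hlx]
      rfl
    have h4 := hasZpRank_logSpan A (L ⊔ AddSubgroup.zmultiples x)
    rw [h2, Submodule.finrank_sup_span_singleton hnot, ← hr1] at h4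
    exact h4
  have h5 : badExtensions A e L r H ≤ S.card := by
    unfold badExtensions
    rw [← Set.ncard_coe_finset S]
    exact Set.ncard_le_ncard hsub S.finite_toSet
  refine h5.trans ((card_subspace (relSpace (logs A e) W) H S ?_).trans
    (Nat.pow_le_pow_right (by omega) ?_))
  · intro k hk
    rw [Finset.mem_filter, Fintype.mem_piFinset] at hk
    exact ⟨hk.1, (icomb_mem _ W k).1 hk.2⟩
  · refine (rel_bound A F hF e he W).trans ?_
    rw [← hr1]

/-- The dimensions for a generating tuple. -/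
lemma dim_of_generates (F : Subfield A.End) {N : ℕ} (e : Fin N → A.Pts) (he : Independent A e)
    (hg : Generates A e) : N = finrank ℚ F * finrank F (endSpan A (hull A e)) := by
  have h1 : endSpan A (hull A e) = ⊤ := by
    rw [eq_top_iff]
    intro z _
    have h2 : z ∈ Submodule.span ℚ (Set.range fun j => (1 : ℚ) ⊗ₜ[ℤ] e j) := by
      rw [hg]
      trivial
    refine Submodule.span_le_restrictScalars ℚ A.End _ (Submodule.span_mono ?_ h2)
    rintro _ ⟨j, rfl⟩
    exact ⟨e j, AddSubgroup.subset_closure ⟨j, rfl⟩, rfl⟩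
  have h3 : finrank F (endSpan A (hull A e)) = finrank F (ℚ ⊗[ℤ] A.Pts) := by
    let φ : endSpan A (hull A e) ≃ₗ[F] (ℚ ⊗[ℤ] A.Pts) :=
      { toFun := fun x => x.1
        invFun := fun x => ⟨x, h1 ▸ trivial⟩
        left_inv := fun x => rfl
        right_inv := fun x => rfl
        map_add' := fun x y => rfl
        map_smul' := fun c x => rfl }
    exact φ.finrank_eq
  have h4 : finrank ℚ (ℚ ⊗[ℤ] A.Pts) = N := by
    rw [finrank_eq_card_basis (Basis.mk he hg.ge), Fintype.card_fin]
  rw [h3, Module.finrank_mul_finrank ℚ F, h4]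

theorem failures_generates (F : Subfield A.End) (hF : ∀ x ∈ F, ∀ y ∈ F, x * y = y * x) {N : ℕ}
    (e : Fin N → A.Pts) (he : Independent A e) (hg : Generates A e) :
    ∃ s : ℕ, N = finrank ℚ F * s ∧ ∀ m H : ℕ, m ≤ finrank ℚ F →
      failures A e m H * (2 * H + 1) ^ (s * (finrank ℚ F + 1 - m)) ≤ m * (2 * H + 1) ^ (m * N) := by
  refine ⟨finrank F (endSpan A (hull A e)), dim_of_generates A F e he hg, fun m H hm => ?_⟩
  have hN := dim_of_generates A F e he hg
  set s := finrank F (endSpan A (hull A e)) with hs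
  set f := finrank ℚ F with hf
  refine (Nat.mul_le_mul_right _ (failures_le A F hF e he m H)).trans ?_
  rw [← hs]
  rcases Nat.eq_zero_or_pos m with rfl | hm0
  · simp
  rw [mul_assoc, ← pow_add]
  refine Nat.mul_le_mul_left _ (Nat.pow_le_pow_right (by omega) ?_)
  obtain ⟨a, rfl⟩ : ∃ a, m = a + 1 := ⟨m - 1, by omega⟩
  obtain ⟨b, hb⟩ : ∃ b, f = a + 1 + b := ⟨f - (a + 1), by omega⟩
  have h1 : f + 1 - (a + 1) = b + 1 := by omega
  rw [h1, Nat.add_sub_cancel, hN, hb]
  apply le_of_eq
  ring

end Pool.Agent.E8helper14.PA
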