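import Pool.Agent.E8helper14.PA.Defs

/-!
# Almost all tuples of rational points of a simple abelian variety are independent over `ℤ_p`
-/

set_option autoImplicit false

open TensorProduct Module Pool.Agent.E8helper40.PC

namespace Pool.Agent.E8helper14.PA

variable {p : ℕ} [Fact p.Prime] {n : ℕ} (A : SimpleAbelianVariety p n)

/-- The logarithms of the points. -/
noncomputable def logs {N : ℕ} (e : Fin N → A.Pts) : Fin N → Fin n → ℚ_[p] := fun j => A.log (A.incl (e j))

lemma log_sum {N : ℕ} (e : Fin N → A.Pts) (k : Fin N → ℤ) :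
    A.log (A.incl (∑ j, k j • e j)) = icomb (logs A e) k := by
  rw [map_sum, map_sum, icomb]
  refine Finset.sum_congr rfl fun j _ => ?_
  rw [map_zsmul, map_zsmul, logs]

lemma log_of_torsion {t : A.Pts} (ht : IsOfFinAddOrder t) : A.log (A.incl t) = 0 := by
  obtain ⟨N, hN, h⟩ := isOfFinAddOrder_iff_nsmul_eq_zero.1 ht
  have h1 : N • A.log (A.incl t) = 0 := by
    rw [← map_nsmul, ← map_nsmul, h, map_zero, map_zero]
  exact (smul_eq_zero.1 h1).resolve_left hN.ne'

lemma log_point {N : ℕ} (e : Fin N → A.Pts) (k : Fin N → ℤ) {t : A.Pts} (ht : IsOfFinAddOrder t) :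
    A.log (A.incl (∑ j, k j • e j + t)) = icomb (logs A e) k := by
  rw [map_add, map_add, log_of_torsion A ht, add_zero, log_sum]

/-- The span of the logarithms of the group generated by a set. -/
lemma logSpan_closure (S : Set A.Pts) :
    logSpan A (AddSubgroup.closure S) = Submodule.span ℚ_[p] ((fun x => A.log (A.incl x)) '' S) := by
  apply le_antisymm
  · rw [logSpan, Submodule.span_le]
    rintro _ ⟨x, hx, rfl⟩
    change A.log (A.incl x) ∈ _
    induction hx using AddSubgroup.closure_induction with
    | mem x hx => exact Submodule.subset_span ⟨x, hx, rfl⟩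
    | zero =>
      rw [map_zero, map_zero]
      exact Submodule.zero_mem _
    | add x y _ _ hx hy =>
      rw [map_add, map_add]
      exact Submodule.add_mem _ hx hy
    | neg x _ hx =>
      rw [map_neg, map_neg]
      exact Submodule.neg_mem _ hx
  · rw [logSpan]
    refine Submodule.span_mono ?_
    rintro _ ⟨x, hx, rfl⟩
    exact ⟨x, AddSubgroup.subset_closure hx, rfl⟩

lemma hasZpRank_logSpan (L : AddSubgroup A.Pts) :
    HasZpRank p (closure A L) (finrank ℚ_[p] (logSpan A L)) := by
  obtain ⟨r, hr⟩ := exists_rank (p := p) A.core A.core_open A.coreEquiv (closure A L)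
    (AddSubgroup.isClosed_topologicalClosure _)
  have hr1 := rank_closure A L hr
  rwa [← hr1]

/-- Independent logarithms give a good tuple. -/
lemma good_of_independent {m N : ℕ} (e : Fin N → A.Pts) (k : Fin m → Fin N → ℤ)
    (h : LinearIndependent ℚ_[p] fun i => icomb (logs A e) (k i)) : GoodTuple A e k := by
  intro t ht
  have h1 := hasZpRank_logSpan A (tupleGroup A e t k)
  have h2 : logSpan A (tupleGroup A e t k) =
      Submodule.span ℚ_[p] (Set.range fun i => icomb (logs A e) (k i)) := by
    rw [tupleGroup, logSpan_closure, ← Set.range_comp]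
    congr 2
    funext i
    exact log_point A e (k i) (ht i)
  rw [h2, finrank_span_eq_card h, Fintype.card_fin] at h1
  exact h1

/-- The bound for the space of the rational combinations of the `e_j` whose logarithms lie in `W`. -/
theorem rel_bound (F : Subfield A.End) (hF : ∀ x ∈ F, ∀ y ∈ F, x * y = y * x) {N : ℕ}
    (e : Fin N → A.Pts) (he : Independent A e) (W : Submodule ℚ_[p] (Fin n → ℚ_[p])) :
    finrank ℚ (relSpace (logs A e) W) ≤ finrank ℚ_[p] W * finrank F (endSpan A (hull A e)) := by
  classical
  let ψ : (Fin N → ℤ) →+ A.Pts := (Fintype.linearCombination ℤ e).toAddMonoidHom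
  have hψ : ∀ k, ψ k = ∑ j, k j • e j := fun k => rfl
  let S : Submodule ℤ (Fin N → ℤ) :=
    (W.restrictScalars ℤ).comap (Fintype.linearCombination ℤ (logs A e))
  have hS : ∀ k, k ∈ S ↔ icomb (logs A e) k ∈ W := fun k => Iff.rfl
  have hSfg : S.toAddSubgroup.FG :=
    (Submodule.fg_iff_addSubgroup_fg S).1 (IsNoetherian.noetherian S)
  set C : AddSubgroup A.Pts := S.toAddSubgroup.map ψ with hC
  have hCfg : C.FG := by
    obtain ⟨T, hT⟩ := hSfg
    refine ⟨T.image ψ, ?_⟩
    rw [Finset.coe_image, ← AddMonoidHom.map_closure, hT]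
  obtain ⟨r, hr, -, -, hmain⟩ := main A F hF C hCfg
  have hr1 := rank_closure A C hr
  -- the logarithms of `C` lie in `W`
  have hrW : r ≤ finrank ℚ_[p] W := by
    rw [hr1]
    refine Submodule.finrank_mono ?_
    rw [logSpan, Submodule.span_le]
    rintro _ ⟨x, ⟨k, hk, rfl⟩, rfl⟩
    change A.log (A.incl (ψ k)) ∈ W
    rw [hψ, log_sum]
    exact (hS k).1 hk
  -- `C` is contained in the group generated by the `e_j`
  have hCe : C ≤ hull A e := by
    rintro _ ⟨k, -, rfl⟩
    rw [hψ]
    refine AddSubgroup.sum_mem _ fun j _ => ?_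
    have hj : e j ∈ hull A e := AddSubgroup.subset_closure (Set.mem_range_self j)
    exact AddSubgroup.zsmul_mem _ hj _
  have hend : endSpan A C ≤ endSpan A (hull A e) := Submodule.span_mono (Set.image_mono hCe)
  have hFD : Module.Finite F A.End := finite_over A.pos A.lie F
  have hfinD : Module.Finite A.End (endSpan A (hull A e)) := by
    have h1 : endSpan A (hull A e) =
        Submodule.span A.End (Set.range fun j => (1 : ℚ) ⊗ₜ[ℤ] e j) := by
      apply le_antisymm
      · rw [endSpan, Submodule.span_le]
        rintro _ ⟨x, hx, rfl⟩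
        change (1 : ℚ) ⊗ₜ[ℤ] x ∈ _
        induction hx using AddSubgroup.closure_induction with
        | mem x hx =>
          obtain ⟨j, rfl⟩ := hx
          exact Submodule.subset_span ⟨j, rfl⟩
        | zero =>
          rw [TensorProduct.tmul_zero]
          exact Submodule.zero_mem _
        | add x y _ _ hx hy =>
          rw [TensorProduct.tmul_add]
          exact Submodule.add_mem _ hx hy
        | neg x _ hx =>
          rw [TensorProduct.tmul_neg]
          exact Submodule.neg_mem _ hx
      · rw [Submodule.span_le]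
        rintro _ ⟨j, rfl⟩
        exact Submodule.subset_span ⟨e j, AddSubgroup.subset_closure ⟨j, rfl⟩, rfl⟩
    rw [h1]
    exact FiniteDimensional.span_of_finite A.End (Set.finite_range _)
  have hfinF : Module.Finite F (endSpan A (hull A e)) :=
    Module.Finite.trans A.End (endSpan A (hull A e))
  have hsle : finrank F (endSpan A C) ≤ finrank F (endSpan A (hull A e)) := by
    let ι : endSpan A C →ₗ[F] endSpan A (hull A e) :=
      { toFun := fun x => ⟨x.1, hend x.2⟩
        map_add' := fun x y => rfl
        map_smul' := fun c x => rfl }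
    refine LinearMap.finrank_le_finrank_of_injective (f := ι) ?_
    intro x y hxy
    exact Subtype.ext (congrArg (fun z : endSpan A (hull A e) => z.1) hxy)
  -- the rational space
  have hrank : finrank ℚ (relSpace (logs A e) W) ≤ rank A C := by
    obtain ⟨g, hg, hgspan⟩ := exists_family A C hCfg
    set T := Submodule.span ℚ (Set.range fun i => (1 : ℚ) ⊗ₜ[ℤ] ((g i : C) : A.Pts)) with hT
    have hTr : finrank ℚ T = rank A C := by
      rw [hT, finrank_span_eq_card hg, Fintype.card_fin]
    have hTfin : Module.Finite ℚ T := FiniteDimensional.span_of_finite ℚ (Set.finite_range _)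
    have hmem : ∀ q ∈ relSpace (logs A e) W,
        Fintype.linearCombination ℚ (fun j => (1 : ℚ) ⊗ₜ[ℤ] e j) q ∈ T := by
      intro q hq
      obtain ⟨b, hb⟩ := IsLocalization.exist_integer_multiples_of_finite (nonZeroDivisors ℤ) q
      choose k hk using hb
      have hb0 : ((b : ℤ) : ℚ) ≠ 0 := by
        exact_mod_cast nonZeroDivisors.coe_ne_zero b
      have hkq : ∀ j, (k j : ℚ) = ((b : ℤ) : ℚ) * q j := by
        intro j
        have := hk j
        simpa [zsmul_eq_mul] using this
      have hkS : k ∈ S := by
        rw [hS, icomb_mem]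
        have h1 : (fun l => (k l : ℚ)) = ((b : ℤ) : ℚ) • q := by
          funext j
          rw [hkq j]
          rfl
        rw [h1]
        exact Submodule.smul_mem _ _ hq
      have h2 := hgspan (ψ k) ⟨k, hkS, rfl⟩
      have h3 : Fintype.linearCombination ℚ (fun j => (1 : ℚ) ⊗ₜ[ℤ] e j) q =
          ((b : ℤ) : ℚ)⁻¹ • ((1 : ℚ) ⊗ₜ[ℤ] ψ k) := by
        rw [hψ, Fintype.linearCombination_apply, TensorProduct.tmul_sum, Finset.smul_sum]
        refine Finset.sum_congr rfl fun j _ => ?_
        rw [TensorProduct.tmul_smul, ← Int.cast_smul_eq_zsmul ℚ, smul_smul, hkq j,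
          inv_mul_cancel_left₀ hb0]
      rw [h3]
      exact Submodule.smul_mem _ _ h2
    rw [← hTr]
    let ι : relSpace (logs A e) W →ₗ[ℚ] T :=
      ((Fintype.linearCombination ℚ (fun j => (1 : ℚ) ⊗ₜ[ℤ] e j)).comp
        (relSpace (logs A e) W).subtype).codRestrict T fun q => hmem q.1 q.2
    refine LinearMap.finrank_le_finrank_of_injective (f := ι) ?_
    intro x y hxy
    have h4 := congrArg Subtype.val hxy
    have h5 := he.fintypeLinearCombination_injective h4
    exact Subtype.ext h5
  exact hrank.trans (hmain.trans (Nat.mul_le_mul hrW hsle))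

end Pool.Agent.E8helper14.PA
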